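import Mathlib

/-!
# Every countable weighted multigraph is majority 3-colourable
-/

namespace Pool.Agent.Results.MP_e8eed4_co.MajorityThree

open Classical in
/-- The total weight `D_φ(v)` of the edges from `v` to vertices of a different colour. -/
noncomputable def diffWeight {V : Type} (w : V → V → ℕ) (φ : V → Fin 3) (v : V) : ENNReal :=
  ∑' u, if φ u ≠ φ v then (w v u : ENNReal) else 0

open Classical in
/-- The total weight `S_φ(v)` of the edges from `v` to vertices of the same colour. -/
noncomputable def sameWeight {V : Type} (w : V → V → ℕ) (φ : V → Fin 3) (v : V) : ENNReal :=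
  ∑' u, if φ u = φ v then (w v u : ENNReal) else 0

section Infinite

variable {V : Type}

/-- Colour along parents of smaller rank. -/
noncomputable def colr (e : V → ℕ) (par : V → Option V)
    (h : ∀ u v, par u = some v → e v < e u) (u : V) : Bool :=
  match _hh : par u with
  | none => false
  | some v => !(colr e par h v)
termination_by e u
decreasing_by exact h _ _ _hh

theorem colr_some (e : V → ℕ) (par : V → Option V) (h : ∀ u v, par u = some v → e v < e u)
    {u v : V} (huv : par u = some v) : colr e par h u = !(colr e par h v) := by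
  rw [colr]
  split
  · rename_i hh
    rw [hh] at huv
    exact absurd huv (by simp)
  · rename_i v' hh
    rw [hh] at huv
    have : v' = v := Option.some_injective _ huv
    rw [this]

/-- In a countable set there is a 2-colouring such that every vertex with infinitely many
neighbours has infinitely many neighbours of the other colour. -/
theorem split_infinite [Countable V] (N : V → Set V) :
    ∃ c : V → Bool, ∀ v, (N v).Infinite → {u | u ∈ N v ∧ c u ≠ c v}.Infinite := by
  classical
  obtain ⟨e, he⟩ := Countable.exists_injective_nat V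
  by_cases hP : ∃ v, (N v).Infinite
  · have hne : Nonempty {v // (N v).Infinite} := by
      obtain ⟨v, hv⟩ := hP
      exact ⟨⟨v, hv⟩⟩
    obtain ⟨s, hs⟩ := exists_surjective_nat {v // (N v).Infinite}
    let t : ℕ → V := fun m => (s (Nat.unpair m).1).1
    have ht : ∀ m, (N (t m)).Infinite := fun m => (s (Nat.unpair m).1).2
    have hpick : ∀ m b, ∃ u ∈ N (t m), b < e u := by
      intro m b
      have h1 : (e '' N (t m)).Infinite := (ht m).image he.injOn
      obtain ⟨x, hx, hbx⟩ := h1.exists_gt b
      obtain ⟨u, hu, rfl⟩ := hx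
      exact ⟨u, hu, hbx⟩
    choose pick hpick1 hpick2 using hpick
    let g : ℕ → V := fun m => Nat.rec (motive := fun _ => V) (pick 0 (e (t 0)))
      (fun n gn => pick (n + 1) (max (e (t (n + 1))) (e gn))) m
    have hg0 : g 0 = pick 0 (e (t 0)) := rfl
    have hgs : ∀ n, g (n + 1) = pick (n + 1) (max (e (t (n + 1))) (e (g n))) := fun n => rfl
    have hgN : ∀ m, g m ∈ N (t m) := by
      intro m
      cases m with
      | zero => rw [hg0]; exact hpick1 _ _
      | succ n => rw [hgs]; exact hpick1 _ _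
    have hgt : ∀ m, e (t m) < e (g m) := by
      intro m
      cases m with
      | zero => rw [hg0]; exact hpick2 _ _
      | succ n => rw [hgs]; exact lt_of_le_of_lt (le_max_left _ _) (hpick2 _ _)
    have hmono : StrictMono (fun m => e (g m)) := by
      apply strictMono_nat_of_lt_succ
      intro n
      show e (g n) < e (g (n + 1))
      rw [hgs]
      exact lt_of_le_of_lt (le_max_right _ _) (hpick2 _ _)
    have hginj : Function.Injective g := fun a b hab => hmono.injective (congrArg e hab)
    let par : V → Option V := fun u => (Function.partialInv g u).map t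
    have hpar : ∀ m : ℕ, par (g m) = some (t m) := by
      intro m
      show (Function.partialInv g (g m)).map t = some (t m)
      rw [Function.partialInv_left hginj]
      rfl
    have hlt : ∀ u v, par u = some v → e v < e u := by
      intro u v huv
      obtain ⟨m, hm1, hm2⟩ := Option.map_eq_some_iff.mp huv
      have hm3 : g m = u := (Function.Injective.isPartialInv hginj m u).mp hm1
      rw [← hm3, ← hm2]
      exact hgt m
    refine ⟨colr e par hlt, ?_⟩
    intro v hv
    obtain ⟨i, hi⟩ := hs ⟨v, hv⟩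
    have hti : ∀ n, t (Nat.pair i n) = v := by
      intro n
      show (s (Nat.unpair (Nat.pair i n)).1).1 = v
      rw [Nat.unpair_pair, hi]
    have hinj : Function.Injective (fun n => g (Nat.pair i n)) := by
      intro a b hab
      have := hginj hab
      exact (Nat.pair_eq_pair.mp this).2
    refine (Set.infinite_range_of_injective hinj).mono ?_
    rintro _ ⟨n, rfl⟩
    refine ⟨?_, ?_⟩
    · have := hgN (Nat.pair i n)
      rwa [hti] at this
    · show colr e par hlt (g (Nat.pair i n)) ≠ colr e par hlt v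
      have h1 := hpar (Nat.pair i n)
      rw [hti] at h1
      rw [colr_some e par hlt h1]
      cases colr e par hlt v <;> simp
  · exact ⟨fun _ => false, fun v hv => absurd ⟨v, hv⟩ hP⟩

end Infinite

section Finite

variable {V : Type} [DecidableEq V]

theorem split_sum (T : Finset V) (a : V → V → ℕ) (hsymm : ∀ u v, a u v = a v u)
    (hdiag : ∀ v, a v v = 0) {X : Type} [DecidableEq X] (φ : V → X) {v₀ : V} (hv₀ : v₀ ∈ T) :
    ∑ u ∈ T, ∑ v ∈ T, (if φ v = φ u then a u v else 0) =
      2 * ∑ u ∈ T, (if φ u = φ v₀ then a v₀ u else 0) +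
        ∑ u ∈ T.erase v₀, ∑ v ∈ T.erase v₀, (if φ v = φ u then a u v else 0) := by
  rw [← Finset.add_sum_erase T _ hv₀]
  have h1 : ∀ u ∈ T.erase v₀, ∑ v ∈ T, (if φ v = φ u then a u v else 0) =
      (if φ u = φ v₀ then a v₀ u else 0) +
        ∑ v ∈ T.erase v₀, (if φ v = φ u then a u v else 0) := by
    intro u _
    rw [← Finset.add_sum_erase T _ hv₀]
    congr 1
    by_cases h : φ u = φ v₀
    · rw [if_pos h, if_pos h.symm, hsymm]
    · rw [if_neg h, if_neg (fun h' => h h'.symm)]
  rw [Finset.sum_congr rfl h1, Finset.sum_add_distrib]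
  have h2 : ∑ u ∈ T.erase v₀, (if φ u = φ v₀ then a v₀ u else 0) =
      ∑ u ∈ T, (if φ u = φ v₀ then a v₀ u else 0) := by
    rw [← Finset.add_sum_erase T (fun u => if φ u = φ v₀ then a v₀ u else 0) hv₀]
    simp [hdiag]
  rw [h2]
  ring

/-- The colour of `v` when the vertices of `F` are coloured by `b` with the colours `0, 1` and the
others are precoloured by `ψ`. -/
noncomputable def colb (F : Set V) [DecidablePred (· ∈ F)] (ψ : V → Fin 3) (v : V) (b : Bool) :
    Fin 3 :=
  if v ∈ F then (if b then 1 else 0) else ψ v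

variable (F : Set V) [DecidablePred (· ∈ F)] (ψ : V → Fin 3)

/-- Local optimality: finitely many vertices of `F` can be satisfied at once. -/
theorem finite_sat (w : V → V → ℕ) (hsymm : ∀ u v, w u v = w v u) (hdiag : ∀ v, w v v = 0)
    (Nf : V → Finset V) (hNf : ∀ v ∈ F, ∀ u, w v u ≠ 0 → u ∈ Nf v) (A : Finset V)
    (hA : ∀ v ∈ A, v ∈ F) :
    ∃ χ : V → Bool, ∀ v ∈ A,
      ∑ u ∈ Nf v, (if colb F ψ u (χ u) = colb F ψ v (χ v) then w v u else 0) ≤
        ∑ u ∈ Nf v, (if colb F ψ u (χ u) ≠ colb F ψ v (χ v) then w v u else 0) := by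
  let T : Finset V := A ∪ A.biUnion Nf
  let a : V → V → ℕ := fun u v => if u ∈ A ∨ v ∈ A then w u v else 0
  have ha_symm : ∀ u v, a u v = a v u := by
    intro u v
    show (if u ∈ A ∨ v ∈ A then w u v else 0) = (if v ∈ A ∨ u ∈ A then w v u else 0)
    rw [hsymm u v]
    by_cases h : u ∈ A ∨ v ∈ A
    · rw [if_pos h, if_pos h.symm]
    · rw [if_neg h, if_neg (fun h' => h h'.symm)]
  have ha_diag : ∀ v, a v v = 0 := by
    intro v
    show (if v ∈ A ∨ v ∈ A then w v v else 0) = 0
    rw [hdiag]
    simp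
  let col : (V → Bool) → V → Fin 3 := fun χ v => colb F ψ v (χ v)
  let Φ : (V → Bool) → ℕ := fun χ => ∑ u ∈ T, ∑ v ∈ T, (if col χ v = col χ u then a u v else 0)
  obtain ⟨χ, hχ⟩ : ∃ χ, ∀ χ', Φ χ ≤ Φ χ' :=
    ⟨Function.argmin Φ, fun χ' => Function.argmin_le Φ χ'⟩
  refine ⟨χ, ?_⟩
  intro v₀ hv₀
  have hv₀T : v₀ ∈ T := Finset.mem_union_left _ hv₀
  have hNT : Nf v₀ ⊆ T := by
    intro u hu
    exact Finset.mem_union_right _ (Finset.mem_biUnion.mpr ⟨v₀, hv₀, hu⟩)
  have hv₀F : v₀ ∈ F := hA v₀ hv₀
  have haw : ∀ u, a v₀ u = w v₀ u := fun u => if_pos (Or.inl hv₀)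
  let χ' : V → Bool := Function.update χ v₀ (!(χ v₀))
  have hother : ∀ u, u ≠ v₀ → col χ' u = col χ u := by
    intro u hu
    show colb F ψ u (χ' u) = colb F ψ u (χ u)
    rw [show χ' u = χ u from Function.update_of_ne hu _ _]
  have hself : col χ' v₀ ≠ col χ v₀ := by
    show colb F ψ v₀ (χ' v₀) ≠ colb F ψ v₀ (χ v₀)
    rw [show χ' v₀ = !(χ v₀) from Function.update_self _ _ _]
    unfold colb
    rw [if_pos hv₀F, if_pos hv₀F]
    cases χ v₀ <;> simp
  have h1 := split_sum T a ha_symm ha_diag (col χ) hv₀T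
  have h2 := split_sum T a ha_symm ha_diag (col χ') hv₀T
  have h3 : ∑ u ∈ T.erase v₀, ∑ v ∈ T.erase v₀, (if col χ' v = col χ' u then a u v else 0) =
      ∑ u ∈ T.erase v₀, ∑ v ∈ T.erase v₀, (if col χ v = col χ u then a u v else 0) := by
    apply Finset.sum_congr rfl
    intro u hu
    apply Finset.sum_congr rfl
    intro v hv
    rw [hother u (Finset.ne_of_mem_erase hu), hother v (Finset.ne_of_mem_erase hv)]
  have h4 : Φ χ ≤ Φ χ' := hχ χ'
  have h5 : ∑ u ∈ T, (if col χ u = col χ v₀ then a v₀ u else 0) ≤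
      ∑ u ∈ T, (if col χ' u = col χ' v₀ then a v₀ u else 0) := by
    have e1 : Φ χ = 2 * ∑ u ∈ T, (if col χ u = col χ v₀ then a v₀ u else 0) +
        ∑ u ∈ T.erase v₀, ∑ v ∈ T.erase v₀, (if col χ v = col χ u then a u v else 0) := h1
    have e2 : Φ χ' = 2 * ∑ u ∈ T, (if col χ' u = col χ' v₀ then a v₀ u else 0) +
        ∑ u ∈ T.erase v₀, ∑ v ∈ T.erase v₀, (if col χ' v = col χ' u then a u v else 0) := h2
    rw [h3] at e2
    omega
  have h6 : ∑ u ∈ T, (if col χ' u = col χ' v₀ then a v₀ u else 0) ≤
      ∑ u ∈ T, (if col χ u ≠ col χ v₀ then a v₀ u else 0) := by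
    apply Finset.sum_le_sum
    intro u _
    by_cases huv : u = v₀
    · subst huv
      rw [ha_diag]
      simp
    · rw [hother u huv]
      by_cases hc : col χ u = col χ' v₀
      · rw [if_pos hc, if_pos (by rw [hc]; exact hself)]
      · rw [if_neg hc]
        exact Nat.zero_le _
  have h7 : ∀ (p : V → Prop) [DecidablePred p],
      ∑ u ∈ Nf v₀, (if p u then w v₀ u else 0) = ∑ u ∈ T, (if p u then a v₀ u else 0) := by
    intro p _
    rw [← Finset.sum_subset hNT]
    · apply Finset.sum_congr rfl
      intro u _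
      rw [haw]
    · intro u _ hu
      have : w v₀ u = 0 := by
        by_contra hne
        exact hu (hNf v₀ hv₀F u hne)
      rw [haw, this]
      simp
  have h8 := h7 (fun u => col χ u = col χ v₀)
  have h9 := h7 (fun u => col χ u ≠ col χ v₀)
  calc ∑ u ∈ Nf v₀, (if colb F ψ u (χ u) = colb F ψ v₀ (χ v₀) then w v₀ u else 0)
      = ∑ u ∈ T, (if col χ u = col χ v₀ then a v₀ u else 0) := h8
    _ ≤ ∑ u ∈ T, (if col χ u ≠ col χ v₀ then a v₀ u else 0) := h5.trans h6
    _ = ∑ u ∈ Nf v₀, (if colb F ψ u (χ u) ≠ colb F ψ v₀ (χ v₀) then w v₀ u else 0) := h9.symm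

/-- Compactness: all vertices of `F` can be satisfied at once. -/
theorem all_sat (w : V → V → ℕ) (hsymm : ∀ u v, w u v = w v u) (hdiag : ∀ v, w v v = 0)
    (Nf : V → Finset V) (hNf : ∀ v ∈ F, ∀ u, w v u ≠ 0 → u ∈ Nf v) :
    ∃ χ : V → Bool, ∀ v ∈ F,
      ∑ u ∈ Nf v, (if colb F ψ u (χ u) = colb F ψ v (χ v) then w v u else 0) ≤
        ∑ u ∈ Nf v, (if colb F ψ u (χ u) ≠ colb F ψ v (χ v) then w v u else 0) := by
  let K : {v // v ∈ F} → Set (V → Bool) := fun v => {χ |
      ∑ u ∈ Nf v.1, (if colb F ψ u (χ u) = colb F ψ v.1 (χ v.1) then w v.1 u else 0) ≤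
        ∑ u ∈ Nf v.1, (if colb F ψ u (χ u) ≠ colb F ψ v.1 (χ v.1) then w v.1 u else 0)}
  have hclosed : ∀ v, IsClosed (K v) := by
    intro v
    have hcont : ∀ (f : V → Bool → Bool → ℕ),
        Continuous (fun χ : V → Bool => ∑ u ∈ Nf v.1, f u (χ u) (χ v.1)) := by
      intro f
      apply continuous_finsetSum
      intro u _
      have h1 : Continuous (fun χ : V → Bool => (χ u, χ v.1)) :=
        (continuous_apply u).prodMk (continuous_apply v.1)
      exact (continuous_of_discreteTopology (f := fun p : Bool × Bool => f u p.1 p.2)).comp h1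
    exact isClosed_le
      (hcont (fun u b b' => if colb F ψ u b = colb F ψ v.1 b' then w v.1 u else 0))
      (hcont (fun u b b' => if colb F ψ u b ≠ colb F ψ v.1 b' then w v.1 u else 0))
  have hne := isCompact_univ.inter_iInter_nonempty (X := V → Bool) K hclosed (by
    intro s
    obtain ⟨χ, hχ⟩ := finite_sat F ψ w hsymm hdiag Nf hNf (s.image Subtype.val) (by
      intro v hv
      obtain ⟨x, -, rfl⟩ := Finset.mem_image.mp hv
      exact x.2)
    refine ⟨χ, Set.mem_univ _, ?_⟩
    rw [Set.mem_iInter₂]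
    intro v hv
    exact hχ v.1 (Finset.mem_image_of_mem _ hv))
  obtain ⟨χ, -, hχ⟩ := hne
  rw [Set.mem_iInter] at hχ
  exact ⟨χ, fun v hv => hχ ⟨v, hv⟩⟩

end Finite

theorem diffWeight_eq_top {V : Type} (w : V → V → ℕ) (φ : V → Fin 3) (v : V)
    (h : {u | w v u ≠ 0 ∧ φ u ≠ φ v}.Infinite) : diffWeight w φ v = ⊤ := by
  classical
  unfold diffWeight
  have : Infinite {u | w v u ≠ 0 ∧ φ u ≠ φ v} := h.to_subtype
  have h1 : ∑' _ : {u | w v u ≠ 0 ∧ φ u ≠ φ v}, (1 : ENNReal) = ⊤ :=
    ENNReal.tsum_const_eq_top_of_ne_zero one_ne_zero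
  rw [eq_top_iff, ← h1, tsum_subtype {u | w v u ≠ 0 ∧ φ u ≠ φ v} (fun _ => (1 : ENNReal))]
  apply ENNReal.tsum_le_tsum
  intro u
  by_cases hu : u ∈ {u | w v u ≠ 0 ∧ φ u ≠ φ v}
  · rw [Set.indicator_of_mem hu, if_pos hu.2]
    have : 1 ≤ w v u := Nat.one_le_iff_ne_zero.mpr hu.1
    exact_mod_cast this
  · rw [Set.indicator_of_notMem hu]
    exact bot_le

/-- **Theorem.** Every countable weighted multigraph (given by a symmetric weight function
`w : V → V → ℕ` that vanishes on the diagonal) has a majority colouring with 3 colours. -/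
theorem result : ∀ (V : Type) [Countable V] (w : V → V → ℕ), (∀ u v, w u v = w v u) →
    (∀ v, w v v = 0) → ∃ φ : V → Fin 3, ∀ v, sameWeight w φ v ≤ diffWeight w φ v := by
  classical
  intro V _ w hsymm hdiag
  let F : Set V := {v | {u | w v u ≠ 0}.Finite}
  let I₀ : Set V := {v | v ∉ F ∧ {u | u ∈ F ∧ w v u ≠ 0}.Infinite}
  obtain ⟨c, hc⟩ := split_infinite (V := V) (fun v => {u | w v u ≠ 0 ∧ u ∉ F ∧ u ∉ I₀})
  let ψ : V → Fin 3 := fun v => if v ∈ I₀ then 2 else (if c v then 1 else 0)
  let Nf : V → Finset V := fun v => if h : {u | w v u ≠ 0}.Finite then h.toFinset else ∅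
  have hNf : ∀ v ∈ F, ∀ u, w v u ≠ 0 → u ∈ Nf v := by
    intro v hv u hu
    have h1 : Nf v = (show {u | w v u ≠ 0}.Finite from hv).toFinset := dif_pos hv
    rw [h1, Set.Finite.mem_toFinset]
    exact hu
  obtain ⟨χ, hχ⟩ := all_sat F ψ w hsymm hdiag Nf hNf
  let φ : V → Fin 3 := fun v => colb F ψ v (χ v)
  have hφF : ∀ v ∈ F, φ v ≠ 2 := by
    intro v hv
    show (if v ∈ F then (if χ v then 1 else 0) else ψ v) ≠ (2 : Fin 3)
    rw [if_pos hv]
    cases χ v <;> decide
  have hφI : ∀ v, v ∉ F → φ v = ψ v := fun v hv => if_neg hv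
  refine ⟨φ, ?_⟩
  intro v
  by_cases hv : v ∈ F
  · -- finite degree
    have h1 := hχ v hv
    have h2 : sameWeight w φ v =
        ((∑ u ∈ Nf v, (if colb F ψ u (χ u) = colb F ψ v (χ v) then w v u else 0) : ℕ) : ENNReal) := by
      unfold sameWeight
      rw [tsum_eq_sum (s := Nf v)]
      · push_cast
        apply Finset.sum_congr rfl
        intro u _
        by_cases h : colb F ψ u (χ u) = colb F ψ v (χ v)
        · rw [if_pos h]
        · rw [if_neg h]
      · intro u hu
        have : w v u = 0 := by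
          by_contra hne
          exact hu (hNf v hv u hne)
        rw [this]
        simp
    have h3 : diffWeight w φ v =
        ((∑ u ∈ Nf v, (if colb F ψ u (χ u) ≠ colb F ψ v (χ v) then w v u else 0) : ℕ) : ENNReal) := by
      unfold diffWeight
      rw [tsum_eq_sum (s := Nf v)]
      · push_cast
        apply Finset.sum_congr rfl
        intro u _
        by_cases h : colb F ψ u (χ u) ≠ colb F ψ v (χ v)
        · rw [if_pos h]
        · rw [if_neg h]
      · intro u hu
        have : w v u = 0 := by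
          by_contra hne
          exact hu (hNf v hv u hne)
        rw [this]
        simp
    rw [h2, h3]
    exact_mod_cast h1
  · -- infinite degree
    rw [diffWeight_eq_top w φ v ?_]
    · exact le_top
    · by_cases hv0 : v ∈ I₀
      · refine hv0.2.mono ?_
        intro u hu
        refine ⟨hu.2, ?_⟩
        rw [hφI v hv, show ψ v = 2 from if_pos hv0]
        exact hφF u hu.1
      · have hψv : ψ v = if c v then 1 else 0 := if_neg hv0
        have hvinf : {u | w v u ≠ 0}.Infinite := hv
        have hF : {u | u ∈ F ∧ w v u ≠ 0}.Finite := by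
          by_contra hinf
          exact hv0 ⟨hv, hinf⟩
        by_cases h0 : {u | u ∈ I₀ ∧ w v u ≠ 0}.Infinite
        · refine h0.mono ?_
          intro u hu
          refine ⟨hu.2, ?_⟩
          rw [hφI v hv, hφI u hu.1.1, hψv, show ψ u = 2 from if_pos hu.1]
          cases c v <;> decide
        · have hJ : {u | w v u ≠ 0 ∧ u ∉ F ∧ u ∉ I₀}.Infinite := by
            intro hfin
            apply hvinf
            rw [Set.not_infinite] at h0
            refine ((hF.union h0).union hfin).subset ?_
            intro u hu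
            by_cases h1 : u ∈ F
            · exact Or.inl (Or.inl ⟨h1, hu⟩)
            · by_cases h2 : u ∈ I₀
              · exact Or.inl (Or.inr ⟨h2, hu⟩)
              · exact Or.inr ⟨hu, h1, h2⟩
          refine (hc v hJ).mono ?_
          intro u hu
          refine ⟨hu.1.1, ?_⟩
          rw [hφI v hv, hφI u hu.1.2.1, hψv, show ψ u = if c u then 1 else 0 from if_neg hu.1.2.2]
          have := hu.2
          revert this
          cases c u <;> cases c v <;> decide

end Pool.Agent.Results.MP_e8eed4_co.MajorityThree
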